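import Pool.Agent.H174.GP.StP

/-!
The characteristic function of the Laplace distribution (`S_L5`).
-/

set_option autoImplicit false

open MeasureTheory ProbabilityTheory Finset

namespace Pool.Agent.H331.GP174

open Pool.Agent.H174.GP

theorem gp_l5 : Pool.Agent.H174.GP.S_L5 := by
  intro t
  rw [charFun_apply_real]
  unfold lap
  rw [integral_withDensity_eq_integral_toReal_smul (by fun_prop)
    (Filter.Eventually.of_forall fun _ => ENNReal.ofReal_lt_top)]
  have ha : (0 : ℝ) < (1 + (t : ℂ) * Complex.I).re := by simp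
  have hb : (-1 + (t : ℂ) * Complex.I).re < 0 := by simp
  have ha0 : (1 + (t : ℂ) * Complex.I) ≠ 0 := by
    intro h
    rw [h] at ha
    exact lt_irrefl _ ha
  have hb0 : (-1 + (t : ℂ) * Complex.I) ≠ 0 := by
    intro h
    rw [h] at hb
    exact lt_irrefl _ hb
  have e1 : Set.EqOn (fun x : ℝ => (ENNReal.ofReal (Real.exp (-|x|) / 2)).toReal •
      Complex.exp ((t : ℂ) * x * Complex.I))
      (fun x : ℝ => (1 / 2 : ℂ) * Complex.exp ((1 + (t : ℂ) * Complex.I) * x)) (Set.Iic 0) := by
    intro x hx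
    have hx' : x ≤ 0 := hx
    simp only
    rw [ENNReal.toReal_ofReal (by positivity), abs_of_nonpos hx', neg_neg, Complex.real_smul,
      Complex.ofReal_div, Complex.ofReal_exp, Complex.ofReal_ofNat, add_mul, one_mul,
      Complex.exp_add, show (t : ℂ) * Complex.I * x = (t : ℂ) * x * Complex.I by ring]
    ring
  have e2 : Set.EqOn (fun x : ℝ => (ENNReal.ofReal (Real.exp (-|x|) / 2)).toReal •
      Complex.exp ((t : ℂ) * x * Complex.I))
      (fun x : ℝ => (1 / 2 : ℂ) * Complex.exp ((-1 + (t : ℂ) * Complex.I) * x)) (Set.Ioi 0) := by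
    intro x hx
    have hx' : 0 < x := hx
    simp only
    rw [ENNReal.toReal_ofReal (by positivity), abs_of_pos hx', Complex.real_smul,
      Complex.ofReal_div, Complex.ofReal_exp, Complex.ofReal_ofNat, add_mul, neg_one_mul,
      Complex.exp_add, show (t : ℂ) * Complex.I * x = (t : ℂ) * x * Complex.I by ring,
      Complex.ofReal_neg]
    ring
  have i1 : IntegrableOn (fun x : ℝ => (1 / 2 : ℂ) *
      Complex.exp ((1 + (t : ℂ) * Complex.I) * x)) (Set.Iic 0) :=
    (integrableOn_exp_mul_complex_Iic ha 0).const_mul _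
  have i2 : IntegrableOn (fun x : ℝ => (1 / 2 : ℂ) *
      Complex.exp ((-1 + (t : ℂ) * Complex.I) * x)) (Set.Ioi 0) :=
    (integrableOn_exp_mul_complex_Ioi hb 0).const_mul _
  have j1 := i1.congr_fun e1.symm measurableSet_Iic
  have j2 := i2.congr_fun e2.symm measurableSet_Ioi
  rw [← intervalIntegral.integral_Iic_add_Ioi j1 j2, setIntegral_congr_fun measurableSet_Iic e1,
    setIntegral_congr_fun measurableSet_Ioi e2, integral_const_mul, integral_const_mul,
    integral_exp_mul_complex_Iic ha, integral_exp_mul_complex_Ioi hb]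
  have h0 : (1 : ℂ) + (t : ℂ) ^ 2 ≠ 0 := by
    have h1 : (0 : ℝ) < 1 + t ^ 2 := by positivity
    exact_mod_cast h1.ne'
  have hmul : (1 + (t : ℂ) * Complex.I) * (-1 + (t : ℂ) * Complex.I) = -(1 + (t : ℂ) ^ 2) := by
    ring_nf
    rw [Complex.I_sq]
    ring
  rw [Complex.ofReal_zero, mul_zero, mul_zero, Complex.exp_zero]
  have e3 : (1 : ℂ) / 2 * (1 / (1 + (t : ℂ) * Complex.I)) +
      1 / 2 * (-1 / (-1 + (t : ℂ) * Complex.I)) =
      -1 / ((1 + (t : ℂ) * Complex.I) * (-1 + (t : ℂ) * Complex.I)) := by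
    field_simp
    ring
  rw [e3, hmul, neg_div_neg_eq]

end Pool.Agent.H331.GP174
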